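import Pool.Agent.R133.AF.Up

open Filter

namespace Pool.Agent.Results.MP_af3d17_nt.ExactFormula

/-- multiplicity of `s` as a zero of the Riemann zeta function (order of vanishing at `s`) -/
noncomputable def zmult (s : ℂ) : ℕ := analyticOrderNatAt riemannZeta s

/-- the number of nontrivial zeros of `ζ` with ordinate in `(0, t]`, with multiplicity -/
noncomputable def NZ (t : ℝ) : ℕ :=
  ∑ᶠ s ∈ {s : ℂ | riemannZeta s = 0 ∧ 0 < s.re ∧ s.re < 1 ∧ 0 < s.im ∧ s.im ≤ t}, zmult s

/-- for `n ≥ 1`: the `n`-th positive ordinate `γ_n` of a nontrivial zero of `ζ`, the ordinates being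
listed in nondecreasing order and repeated according to multiplicity -/
noncomputable def ord (n : ℕ) : ℝ := sInf {t : ℝ | n ≤ NZ t}

/-- `log (γ_(n+1) - γ_n) / log n`, with `log 0 = -∞` -/
noncomputable def gapLog (n : ℕ) : EReal :=
  if ord (n + 1) - ord n = 0 then ⊥ else
    ((Real.log (ord (n + 1) - ord n) / Real.log n : ℝ) : EReal)

/-- the quantity `α` of the problem -/
noncomputable def alpha : EReal := liminf gapLog atTop

/-- all nontrivial zeros of ordinate `≥ T`, for some `T`, are simple and on the critical line -/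
def EventuallySimpleOnLine : Prop :=
  ∃ T : ℝ, ∀ s : ℂ, riemannZeta s = 0 → 0 < s.re → s.re < 1 → T ≤ s.im →
    s.re = 1 / 2 ∧ zmult s = 1

/-- first, second and third derivative of `ζ` at `ρ_n = 1/2 + i γ_n` -/
noncomputable def z1 (n : ℕ) : ℂ := deriv riemannZeta ⟨1 / 2, ord n⟩
/-- second derivative of `ζ` at `ρ_n = 1/2 + i γ_n` -/
noncomputable def z2 (n : ℕ) : ℂ := deriv (deriv riemannZeta) ⟨1 / 2, ord n⟩
/-- third derivative of `ζ` at `ρ_n = 1/2 + i γ_n` -/
noncomputable def z3 (n : ℕ) : ℂ := deriv (deriv (deriv riemannZeta)) ⟨1 / 2, ord n⟩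

/-- **Exact formula for `α`, and two-sided bounds.**

(1) If it is not true that all but finitely many nontrivial zeros in the upper half plane are simple
and on the critical line, then `α = -∞`.

(2) If it is true, then
`α = - limsup_n log⁺ |ζ'''/(3ζ') - (ζ''/(2ζ'))^2 (ρ_n)| / (2 log n)`, and moreover
`- limsup_n log⁺ (1/|ζ'(ρ_n)|) / log n ≤ α ≤ - limsup_n log⁺ |ζ''/ζ' (ρ_n)| / log n`. -/
theorem result :
    (¬ EventuallySimpleOnLine → alpha = ⊥) ∧
    (EventuallySimpleOnLine →
      alpha = - limsup (fun n : ℕ =>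
        ((Real.posLog ‖z3 n / (3 * z1 n) - (z2 n / (2 * z1 n)) ^ 2‖ / (2 * Real.log n) : ℝ) :
          EReal)) atTop ∧
      - limsup (fun n : ℕ => ((Real.posLog ‖z1 n‖⁻¹ / Real.log n : ℝ) : EReal)) atTop ≤ alpha ∧
      alpha ≤
        - limsup (fun n : ℕ => ((Real.posLog ‖z2 n / z1 n‖ / Real.log n : ℝ) : EReal)) atTop) := by
  refine ⟨fun h => ?_, fun h => ?_⟩
  · exact Pool.Agent.R133.AF.main_bad h
  · obtain ⟨T, hT⟩ := h
    exact ⟨Pool.Agent.R133.AF.main_good (T := T) hT, Pool.Agent.R133.AF.main_low (T := T) hT,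
      Pool.Agent.R133.AF.main_up (T := T) hT⟩

end Pool.Agent.Results.MP_af3d17_nt.ExactFormula
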