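import Pool.Agent.R319.SF.FM
import Pool.Agent.R319.SK.K9

/-!
# Which correlations determine the exponent of the small gaps in the random matrix model

In the random matrix model of the ordinates the zeros with ordinates in `[2πk, 2π(k+1))` are
replaced by `N k` random points on the unit circle (`N k` about `log k`, the number of these zeros),
independent for different `k`, and `α` becomes the liminf of `log (gap (x k)) / log k`, where
`gap (x k)` is the smallest distance between two of the points of the block `x k`.

Suppose that the laws of the blocks have the moments `E[F(z) conj G(z)]` of the Haar law, of degree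
at most `D k = k ^ (c + o(1))` in each variable.  It is proved that the exponent is almost surely at
most `-min(c, 1/3)`, and that it is almost surely equal to `-1/3`, the conjectured value of `α`, if
`c > 1/3`.  The companion result `ModelExponentsPower` shows that for `c < 1/3` every exponent in
`[-∞, -c]` occurs.  So the exponent of the small gaps is determined by the correlations with
frequencies up to `k ^ c` if `c > 1/3`, and for `c < 1/3` the possible values are exactly those
in `[-∞, -c]`.

Idea of the proof.  Let `S = ∑_{l < m} z_i^l z_j^{m-1-l}`, so that `|S| ≥ m/2` if `|z_i - z_j| ≤ 1/m`,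
and `|S| |z_i - z_j| ≤ 2`.  The mean of `|S|^4` bounds the probability of a gap at most `1/m` from
above by `C N^5 m^{-3}`.  The mean of `|S|^6 (τ² - |z_i - z_j|²)`, with `τ = C N^3 / m`, bounds the
probability of a gap at most `τ` from below by `c N^{-2} m^{-3}`.
-/

open MeasureTheory ProbabilityTheory Filter Topology
open scoped ENNReal

namespace Pool.Agent.Results.MP_af3d17_nt.ForcedExponents

/-- the law of the eigenvalues `z = (e^{iθ_1}, …, e^{iθ_N})` of a Haar distributed unitary
`N × N` matrix (Weyl's formula): the angles in `(0, 2π]^N` have the density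
`(N! (2π)^N)⁻¹ ∏_{i < j} |z_j - z_i|²` -/
noncomputable def haarLaw (N : ℕ) : Measure (Fin N → ℂ) :=
  ((volume.restrict (Set.univ.pi fun _ : Fin N => Set.Ioc (0 : ℝ) (2 * Real.pi))).withDensity
    fun θ => ENNReal.ofReal ((∏ i : Fin N, ∏ j ∈ Finset.Ioi i,
      ‖Complex.exp (Complex.I * θ j) - Complex.exp (Complex.I * θ i)‖ ^ 2) /
        ((N.factorial : ℝ) * (2 * Real.pi) ^ N))).map
    fun θ j => Complex.exp (Complex.I * θ j)

/-- `ν` is the law of `N` points on the unit circle with the same moments `E[F(z) conj G(z)]` as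
the eigenvalues of a Haar distributed unitary `N × N` matrix, for all polynomials `F`, `G` of
degree at most `D` in each of the `N` variables -/
structure Mimics (N D : ℕ) (ν : Measure (Fin N → ℂ)) : Prop where
  unit : ∀ᵐ z ∂ν, ∀ i, ‖z i‖ = 1
  moments : ∀ F G : MvPolynomial (Fin N) ℂ, (∀ j, F.degreeOf j ≤ D) → (∀ j, G.degreeOf j ≤ D) →
    ∫ z, MvPolynomial.eval z F * (starRingEnd ℂ) (MvPolynomial.eval z G) ∂ν =
      ∫ z, MvPolynomial.eval z F * (starRingEnd ℂ) (MvPolynomial.eval z G) ∂(haarLaw N)

/-- the smallest distance between two of the points `z_1, …, z_N` -/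
noncomputable def gap {N : ℕ} (z : Fin N → ℂ) : ℝ≥0∞ :=
  ⨅ i, ⨅ j, ⨅ (_ : i ≠ j), ENNReal.ofReal ‖z i - z j‖

/-- the exponent of the small gaps of a sequence of blocks, with `log 0 = -∞` -/
noncomputable def exponent {N : ℕ → ℕ} (x : (k : ℕ) → Fin (N k) → ℂ) : EReal :=
  liminf (fun k : ℕ => ENNReal.log (gap (x k)) / ((Real.log k : ℝ) : EReal)) atTop

lemma haarLaw_eq (N : ℕ) : haarLaw N = Pool.Agent.R319.SK.haar N := rfl

/-- **Theorem.** Let the block sizes `N k ≥ 2` satisfy `log (N k) = o(log k)` (for example
`N k = ⌈log k⌉ + 2`), let `c > 0` and `D k ≥ k ^ (c - o(1))`.  If the blocks are independent, and the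
moments of their laws of degree at most `D k` in each variable are those of the Haar law, then
the exponent of the small gaps is at most `-min(c, 1/3)` almost surely, and it is `-1/3` almost
surely if `c > 1/3`. -/
theorem result (N D : ℕ → ℕ) (hN : ∀ k, 2 ≤ N k)
    (hlogN : Tendsto (fun k : ℕ => Real.log (N k) / Real.log k) atTop (𝓝 0))
    (c : ℝ) (hc : 0 < c) (hD : ∀ e : ℝ, e < c → ∀ᶠ k : ℕ in atTop, (k : ℝ) ^ e ≤ (D k : ℝ))
    (ν : (k : ℕ) → Measure (Fin (N k) → ℂ)) [∀ k, IsProbabilityMeasure (ν k)]
    (hM : ∀ k, Mimics (N k) (D k) (ν k)) :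
    (∀ᵐ x ∂(Measure.infinitePi ν), exponent x ≤ ((-(min c (1 / 3)) : ℝ) : EReal)) ∧
    (1 / 3 < c → ∀ᵐ x ∂(Measure.infinitePi ν), exponent x = ((-1 / 3 : ℝ) : EReal)) := by
  have hMom : ∀ k, Pool.Agent.R319.SK.MomN (N k) (D k) (ν k) := by
    intro k F G hF hG
    rw [(hM k).moments F G hF hG, haarLaw_eq, Pool.Agent.R319.SK.haar_int]
  have h := Pool.Agent.R319.SF.main hN hlogN hc hD ν (fun k => (hM k).unit) hMom
  constructor
  · filter_upwards [h] with x hx
    exact hx.1
  · intro hc3
    filter_upwards [h] with x hx
    exact hx.2 hc3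

end Pool.Agent.Results.MP_af3d17_nt.ForcedExponents
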