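import Pool.Agent.R319.ST.T9
import Pool.Agent.R319.SK.K9

/-!
# The exponent of the small gaps in the random matrix model

In the random matrix model of the ordinates the zeros with ordinates in `[2πk, 2π(k+1))` are
replaced by `N k` random points on the unit circle (`N k` about `log k`, the number of these zeros),
independent for different `k`, and `α` becomes the liminf of `log (gap (x k)) / log k`, where
`gap (x k)` is the smallest distance between two of the points of the block `x k`.

* If the blocks are the eigenvalues of Haar distributed unitary matrices, then the exponent is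
  `-1/3` almost surely.
* What is known about the correlations of the zeros (Montgomery, Hejhal, Rudnick-Sarnak, for
  band-limited test functions) corresponds to the moments `E[F(z) conj G(z)]` for symmetric
  polynomials `F`, `G` of degree at most `N k`.  Let `0 ≤ c < 1/3`.  For every `α ∈ [-∞, -c]` there are
  laws of the blocks with all moments `E[F(z) conj G(z)]` of degree at most `k ^ (c + o(1))` in each
  variable equal to those of the Haar measure, such that the exponent is `α` almost surely.  For
  `c = 0` this is the full range `[-∞, 0]`, and the degrees may be any power of `log k`; for `c > 0` the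
  correlations at all scales down to the power `k ^ (-c)` agree with those of the Haar law.

Idea of the proof of the second part.  Let `w` be a real combination of products `F conj G`, of
degree at most `K ≥ N` in each variable.  In each variable `w` times the squared Vandermonde
determinant is a trigonometric polynomial of degree at most `2K`, so that by a Nikolskii inequality in
one variable only a small part of the mean of `|w|` comes from the configurations with a gap less
than `c N^{-2} K^{-1}`.  Hence if `w ≥ 0` at all configurations with larger gaps, then its mean for the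
Haar measure is at least half of the mean of `|w|`.  The same argument in one variable shows that
the mean of `w` over configurations with one point moved to the distance `s` from another one is
at most `C N^2 K^3` times the mean of `|w|`.  By M. Riesz' extension theorem and the Riesz-Markov
theorem the Haar moments are those of a mixture of the law of such configurations with two close
points (with a weight at least `c N^{-2} K^{-3}`, and an arbitrary law of `s`), and of a law of
configurations with gaps at least `c N^{-2} K^{-1}`.  The Borel-Cantelli lemmas give the exponent.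
-/

open MeasureTheory ProbabilityTheory Filter Topology
open scoped ENNReal

namespace Pool.Agent.Results.MP_af3d17_nt.ModelExponentsPower

/-- the law of the eigenvalues `z = (e^{iθ_1}, …, e^{iθ_N})` of a Haar distributed unitary
`N × N` matrix (Weyl's formula): the angles in `(0, 2π]^N` have the density
`(N! (2π)^N)⁻¹ ∏_{i < j} |z_j - z_i|²` -/
noncomputable def haarLaw (N : ℕ) : Measure (Fin N → ℂ) :=
  ((volume.restrict (Set.univ.pi fun _ : Fin N => Set.Ioc (0 : ℝ) (2 * Real.pi))).withDensity
    fun θ => ENNReal.ofReal ((∏ i : Fin N, ∏ j ∈ Finset.Ioi i,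
      ‖Complex.exp (Complex.I * θ j) - Complex.exp (Complex.I * θ i)‖ ^ 2) /
        ((N.factorial : ℝ) * (2 * Real.pi) ^ N))).map
    fun θ j => Complex.exp (Complex.I * θ j)

/-- `ν` is the law of `N` points on the unit circle with the same moments `E[F(z) conj G(z)]` as
the eigenvalues of a Haar distributed unitary `N × N` matrix, for all polynomials `F`, `G` of
degree at most `D` in each of the `N` variables -/
structure Mimics (N D : ℕ) (ν : Measure (Fin N → ℂ)) : Prop where
  unit : ∀ᵐ z ∂ν, ∀ i, ‖z i‖ = 1
  moments : ∀ F G : MvPolynomial (Fin N) ℂ, (∀ j, F.degreeOf j ≤ D) → (∀ j, G.degreeOf j ≤ D) →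
    ∫ z, MvPolynomial.eval z F * (starRingEnd ℂ) (MvPolynomial.eval z G) ∂ν =
      ∫ z, MvPolynomial.eval z F * (starRingEnd ℂ) (MvPolynomial.eval z G) ∂(haarLaw N)

/-- the smallest distance between two of the points `z_1, …, z_N` -/
noncomputable def gap {N : ℕ} (z : Fin N → ℂ) : ℝ≥0∞ :=
  ⨅ i, ⨅ j, ⨅ (_ : i ≠ j), ENNReal.ofReal ‖z i - z j‖

/-- the exponent of the small gaps of a sequence of blocks, with `log 0 = -∞` -/
noncomputable def exponent {N : ℕ → ℕ} (x : (k : ℕ) → Fin (N k) → ℂ) : EReal :=
  liminf (fun k : ℕ => ENNReal.log (gap (x k)) / ((Real.log k : ℝ) : EReal)) atTop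

lemma haarLaw_eq (N : ℕ) : haarLaw N = Pool.Agent.R319.SK.haar N := rfl

/-- **Theorem.** Let the block sizes `N k ≥ 2` satisfy `log (N k) = o(log k)` (for example
`N k = ⌈log k⌉ + 2`).  If the blocks are independent, with the law of the eigenvalues of Haar
distributed unitary matrices, the exponent of the small gaps is `-1/3` almost surely.  Let
`0 ≤ c < 1/3`, `D k ≤ k ^ (c + o(1))` and `α ∈ [-∞, -c]`.  Then there are laws `ν k` of `N k` points on
the unit circle with the moments of the Haar law of degree at most `D k` in each variable, such
that the exponent of the small gaps of independent blocks with the laws `ν k` is `α` almost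
surely. -/
theorem result (N : ℕ → ℕ) (hN : ∀ k, 2 ≤ N k)
    (hlogN : Tendsto (fun k : ℕ => Real.log (N k) / Real.log k) atTop (𝓝 0)) :
    (∃ _ : ∀ k, IsProbabilityMeasure (haarLaw (N k)),
      ∀ᵐ x ∂(Measure.infinitePi fun k => haarLaw (N k)),
        exponent x = ((-1 / 3 : ℝ) : EReal)) ∧
    ∀ (c : ℝ), 0 ≤ c → c < 1 / 3 → ∀ D : ℕ → ℕ,
      (∀ e : ℝ, c < e → ∀ᶠ k : ℕ in atTop, (D k : ℝ) ≤ (k : ℝ) ^ e) →
      ∀ α : EReal, α ≤ ((-c : ℝ) : EReal) →
        ∃ (ν : (k : ℕ) → Measure (Fin (N k) → ℂ)) (_ : ∀ k, IsProbabilityMeasure (ν k)),
          (∀ k, Mimics (N k) (D k) (ν k)) ∧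
          ∀ᵐ x ∂(Measure.infinitePi ν), exponent x = α := by
  constructor
  · exact ⟨fun k => Pool.Agent.R319.SK.haar_prob (N k),
      Pool.Agent.R319.SK.main_haar hN hlogN⟩
  · intro c hc0 hc D hD α hα
    obtain ⟨ν, h0, h1, h2⟩ := Pool.Agent.R319.ST.main hN hlogN hc0 hc hD α hα
    refine ⟨ν, h0, fun k => ⟨(h1 k).1, fun F G hF hG => ?_⟩, h2⟩
    rw [(h1 k).2 F G hF hG, haarLaw_eq, Pool.Agent.R319.SK.haar_int]

end Pool.Agent.Results.MP_af3d17_nt.ModelExponentsPower
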